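import Pool.Agent.NH25.UF.All
import Pool.Agent.Y120.J.All

/-!
# The family of the modular invariant at infinity
-/

set_option autoImplicit false

open PowerSeries

namespace Pool.Agent.NH25.JM

open Pool.Agent.Y113 Pool.Agent.Y921.DB Pool.Agent.Y120.J Pool.Agent.NH25.DL

/-- the monodromy -/
def NJ : Matrix (Fin 2) (Fin 2) ℤ := !![0, 0; 1, 0]

/-- the fundamental matrix -/
noncomputable def HJ : Matrix (Fin 2) (Fin 2) ℚ⟦X⟧ := !![FF, F1; GG, G1]

lemma gfn {f : ℚ⟦X⟧} (h : SDc f) : GFn f := by
  have h1 := GFn.of_rat (L := ℚ) h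
  convert h1 using 1
  ext m
  rw [coeff_map]
  rfl

lemma c0FF : coeff 0 FF = (1 : ℚ) := by
  unfold FF
  rw [coeff_zero_eq_constantCoeff_apply, map_mul, ← coeff_zero_eq_constantCoeff_apply,
    ← coeff_zero_eq_constantCoeff_apply, coeff_mk, coeff_mk]
  simp [fu, fa]

lemma c0GG : coeff 0 GG = (0 : ℚ) := by
  unfold GG
  rw [coeff_zero_eq_constantCoeff_apply, map_mul, ← coeff_zero_eq_constantCoeff_apply,
    ← coeff_zero_eq_constantCoeff_apply, coeff_mk, coeff_mk]
  simp [fb]

lemma c0F1 : coeff 0 F1 = (0 : ℚ) := by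
  unfold F1
  simp

lemma c0G1 : coeff 0 G1 = (1 : ℚ) := by
  unfold G1
  rw [map_add, c0FF]
  simp

lemma sdF : SDc FF := hsd.1
lemma sdG : SDc GG := hsd.2
lemma sdF1 : SDc F1 := SDc.X.mul sdF.deriv
lemma sdG1 : SDc G1 := (SDc.X.mul sdG.deriv).add sdF

/-- **The family.** -/
theorem lfamJ : LFam NJ HJ where
  nil := by
    ext i j
    fin_cases i <;> fin_cases j <;> simp [NJ, pow_two, Matrix.mul_apply, Fin.sum_univ_two]
  one := fun i j => by
    fin_cases i <;> fin_cases j <;> simp [HJ, c0FF, c0GG, c0F1, c0G1]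
  ode := by
    refine ⟨T1.map (Int.castRingHom ℚ), ![![0, Q1.map (Int.castRingHom ℚ)], ![T1.map (Int.castRingHom ℚ), 0]], ?_, ?_⟩
    · simp [T1, Polynomial.coeff_zero_eq_eval_zero, Polynomial.eval_map]
    · obtain ⟨h1, h2, h3⟩ := hode
      have hT : ((T1.map (Int.castRingHom ℚ) : Polynomial ℚ) : ℚ⟦X⟧) = ps T1 := rfl
      have hQ : ((Q1.map (Int.castRingHom ℚ) : Polynomial ℚ) : ℚ⟦X⟧) = ps Q1 := rfl
      intro i j
      fin_cases i <;> fin_cases j
      · simp only [HJ, NJ, Fin.sum_univ_two, Fin.zero_eta, Matrix.of_apply, Matrix.cons_val_zero, Matrix.cons_val_one,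
          Fin.isValue, Polynomial.coe_zero, hT, hQ]
        simp only [Int.cast_zero, map_zero, zero_mul, mul_zero, add_zero, zero_add]
        rw [mul_comm]
        rfl
      · simp only [HJ, NJ, Fin.sum_univ_two, Fin.zero_eta, Fin.mk_one, Matrix.of_apply, Matrix.cons_val_zero,
          Matrix.cons_val_one, Fin.isValue, Polynomial.coe_zero, hT, hQ]
        simp only [Int.cast_zero, map_zero, zero_mul, mul_zero, add_zero, zero_add]
        rw [mul_comm FF]
        exact h1
      · simp only [HJ, NJ, Fin.sum_univ_two, Fin.zero_eta, Fin.mk_one, Matrix.of_apply, Matrix.cons_val_zero,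
          Matrix.cons_val_one, Fin.isValue, Polynomial.coe_zero, hT, hQ]
        simp only [Int.cast_zero, Int.cast_one, map_zero, map_one, one_mul, zero_mul, mul_zero, add_zero, zero_add]
        rw [mul_comm]
        rfl
      · simp only [HJ, NJ, Fin.sum_univ_two, Fin.zero_eta, Fin.mk_one, Matrix.of_apply, Matrix.cons_val_zero,
          Matrix.cons_val_one, Fin.isValue, Polynomial.coe_zero, hT, hQ]
        simp only [Int.cast_zero, Int.cast_one, map_zero, map_one, one_mul, zero_mul, mul_zero, add_zero, zero_add]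
        rw [mul_comm GG]
        exact h2
  gfun := fun i j => by
    fin_cases i <;> fin_cases j
    · exact gfn sdF
    · exact gfn sdF1
    · exact gfn sdG
    · exact gfn sdG1
  inv := by
    obtain ⟨h1, h2, h3⟩ := hode
    refine ⟨!![G1, -F1; -GG, FF], ?_, fun i j => ?_⟩
    · refine Matrix.ext fun i j => ?_
      fin_cases i <;> fin_cases j
      · simp only [HJ, Matrix.mul_apply, Fin.sum_univ_two, Fin.zero_eta, Matrix.of_apply, Matrix.cons_val_zero,
          Matrix.cons_val_one, Fin.isValue, Matrix.one_apply_eq]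
        linear_combination h3
      · simp [HJ, Matrix.mul_apply, Fin.sum_univ_two]
        ring
      · simp [HJ, Matrix.mul_apply, Fin.sum_univ_two]
        ring
      · simp only [HJ, Matrix.mul_apply, Fin.sum_univ_two, Fin.mk_one, Matrix.of_apply, Matrix.cons_val_zero,
          Matrix.cons_val_one, Fin.isValue, Matrix.one_apply_eq]
        linear_combination h3
    · have hneg : ∀ {f : ℚ⟦X⟧}, SDc f → SDc (-f) := fun {f} h => by
        have h4 := (SDc.int (-1)).mul h
        have h5 : ((-1 : ℤ) : ℚ⟦X⟧) * f = -f := by push_cast; ring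
        rwa [h5] at h4
      fin_cases i <;> fin_cases j
      · exact gfn sdG1
      · exact gfn (hneg sdF1)
      · exact gfn (hneg sdG)
      · exact gfn sdF

end Pool.Agent.NH25.JM
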