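import Pool.Agent.NH25.JM.Fam

/-!
# The functions of the family are algebraically independent
-/

set_option autoImplicit false

open PowerSeries

namespace Pool.Agent.NH25.JM

open Pool.Agent.Y113 Pool.Agent.Y921.DB Pool.Agent.Y120.J Pool.Agent.NH25.DL
open Pool.Agent.TH21.MS (g0 g1 g2 jj)
open Pool.Agent.Y120.R (p1)

/-- the points with large modular invariant -/
theorem fdc (Y : ℝ) : ∃ T : ℝ, ∀ z : UpperHalfPlane, T ≤ ‖jj z‖ → ∃ (γ : Matrix.SpecialLinearGroup (Fin 2) ℤ)
    (w : UpperHalfPlane), Y ≤ w.im ∧ z = γ • w ∧ jj w = jj z := by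
  obtain ⟨B, hB⟩ := Pool.Agent.Y988.J.bound Y
  refine ⟨B + 1, fun z hz => ?_⟩
  obtain ⟨γ, hγ⟩ := ModularGroup.exists_smul_mem_fd z
  have hjw : jj (γ • z : UpperHalfPlane) = jj z := Pool.Agent.Y988.J.jj_inv γ z
  refine ⟨γ⁻¹, γ • z, ?_, by rw [inv_smul_smul], hjw⟩
  have him : 1 / 2 ≤ (γ • z).im := by
    have h1 := ModularGroup.three_le_four_mul_im_sq_of_mem_fd hγ
    have h2 := (γ • z).im_pos
    nlinarith
  have hre : |(γ • z).re| ≤ 1 / 2 := hγ.2
  by_contra hcon
  push Not at hcon
  have h1 := hB ((γ • z : UpperHalfPlane) : ℂ) hre him hcon.le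
  rw [hjw] at h1
  linarith

/-- the real values -/
lemma VL_real (f : ℚ⟦X⟧) (t : ℝ) : VL f (1 / (t : ℂ)) = ((ev t f : ℝ) : ℂ) := by
  unfold VL ev
  rw [Complex.ofReal_tsum]
  refine tsum_congr fun m => ?_
  push_cast
  rfl

lemma VL_zero (f : ℚ⟦X⟧) : VL f 0 = ((coeff 0 f : ℚ) : ℂ) := by
  unfold VL
  rw [tsum_eq_single 0 fun m hm => by rw [zero_pow hm, mul_zero], pow_zero, mul_one]
  rfl

/-- the holomorphic solution has no zeros near the centre -/
lemma FF_ne : ∃ ε : ℝ, 0 < ε ∧ ∀ z : ℂ, ‖z‖ < ε → VL FF z ≠ 0 := by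
  obtain ⟨A, hA⟩ := gfn sdF
  have hA1 := hA.one_le
  have h1 := Pool.Agent.NH25.UF.VL_an (g := FF) (A := A) (by linarith) (fun m => hA.1 (algebraMap ℚ ℂ) m) 0
    (by rw [Metric.mem_ball, dist_self]; positivity)
  have h2 : ∀ᶠ z in nhds (0 : ℂ), VL FF z ≠ 0 := h1.continuousAt.eventually_ne (by
    rw [VL_zero, c0FF]
    norm_num)
  obtain ⟨ε, hε, h3⟩ := Metric.eventually_nhds_iff.1 h2
  exact ⟨ε, hε, fun z hz => h3 (by rwa [dist_zero_right])⟩

/-- the even and the odd part -/
noncomputable def ph : MvPolynomial (Option (Fin 2)) ℂ →ₐ[ℂ] MvPolynomial (Option (Fin 2)) ℂ :=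
  MvPolynomial.aeval fun o => if o = some 0 then MvPolynomial.X (some 0) ^ 2 else MvPolynomial.X o

lemma evenodd (P : MvPolynomial (Option (Fin 2)) ℂ) : ∃ A B : MvPolynomial (Option (Fin 2)) ℂ,
    P = ph A + MvPolynomial.X (some 0) * ph B := by
  induction P using MvPolynomial.induction_on with
  | C c => exact ⟨MvPolynomial.C c, 0, by
      rw [map_zero, mul_zero, add_zero]
      exact (MvPolynomial.aeval_C _ c).symm⟩
  | add f g hf hg =>
    obtain ⟨A, B, h1⟩ := hf
    obtain ⟨A', B', h2⟩ := hg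
    exact ⟨A + A', B + B', by rw [map_add, map_add, h1, h2]; ring⟩
  | mul_X f o hf =>
    obtain ⟨A, B, h1⟩ := hf
    by_cases ho : o = some 0
    · refine ⟨MvPolynomial.X (some 0) * B, A, ?_⟩
      have h2 : ph (MvPolynomial.X (some 0)) = MvPolynomial.X (some 0) ^ 2 := by
        unfold ph
        rw [MvPolynomial.aeval_X, if_pos rfl]
      rw [map_mul, h2, ho, h1]
      ring
    · refine ⟨A * MvPolynomial.X o, B * MvPolynomial.X o, ?_⟩
      have h2 : ph (MvPolynomial.X o) = MvPolynomial.X o := by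
        unfold ph
        rw [MvPolynomial.aeval_X, if_neg ho]
      rw [map_mul, map_mul, h2, h1]
      ring

/-- the involution -/
noncomputable def io : MvPolynomial (Option (Fin 2)) ℂ →ₐ[ℂ] MvPolynomial (Option (Fin 2)) ℂ :=
  MvPolynomial.aeval fun o => if o = some 0 then -MvPolynomial.X (some 0) else MvPolynomial.X o

lemma io_ph (A : MvPolynomial (Option (Fin 2)) ℂ) : io (ph A) = ph A := by
  have h1 : io.comp ph = ph := by
    refine MvPolynomial.algHom_ext fun o => ?_
    rw [AlgHom.comp_apply]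
    unfold ph
    rw [MvPolynomial.aeval_X]
    by_cases ho : o = some 0
    · rw [if_pos ho, map_pow]
      unfold io
      rw [MvPolynomial.aeval_X, if_pos rfl]
      ring
    · rw [if_neg ho]
      unfold io
      rw [MvPolynomial.aeval_X, if_neg ho]
  exact congrFun (congrArg DFunLike.coe h1) A

lemma io_X : io (MvPolynomial.X (some 0)) = -MvPolynomial.X (some 0) := by
  unfold io
  rw [MvPolynomial.aeval_X, if_pos rfl]

lemma sq_zero {A B : MvPolynomial (Option (Fin 2)) ℂ} (h : A ^ 2 = MvPolynomial.X (some 0) * B ^ 2) :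
    ph A + MvPolynomial.X (some 0) * ph B = 0 := by
  have h1 : ph A ^ 2 = (MvPolynomial.X (some 0) * ph B) ^ 2 := by
    have h2 := congrArg ph h
    rw [map_pow, map_mul, map_pow] at h2
    have h3 : ph (MvPolynomial.X (some 0)) = MvPolynomial.X (some 0) ^ 2 := by
      unfold ph
      rw [MvPolynomial.aeval_X, if_pos rfl]
    rw [h2, h3]
    ring
  have h2 : (2 : MvPolynomial (Option (Fin 2)) ℂ) ≠ 0 := two_ne_zero
  rcases sq_eq_sq_iff_eq_or_eq_neg.1 h1 with h3 | h3
  · have h4 := congrArg io h3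
    rw [io_ph, map_mul, io_ph, io_X] at h4
    have h5 : 2 * ph A = 0 := by linear_combination h3 + h4
    have h6 : ph A = 0 := (mul_eq_zero.1 h5).resolve_left h2
    rw [← h3, h6, add_zero]
  · rw [h3]
    ring

/-- the points of the curve -/
def SJ (r : ℝ) : Set (ℂ × (Fin 2 → ℂ)) :=
  {p | ∃ z t : ℂ, ‖z‖ < r ∧ p = (z, ![VL FF z, VL GG z - t * VL FF z])}

/-- **The curve is Zariski dense.** -/
theorem SJ_dense {r : ℝ} (hr : 0 < r) (P : MvPolynomial (Option (Fin 2)) ℂ)
    (hP : ∀ p ∈ SJ r, MvPolynomial.eval (fun o => o.elim p.1 p.2) P = 0) : P = 0 := by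
  obtain ⟨ε, hε, hne⟩ := FF_ne
  obtain ⟨A, B, hAB⟩ := evenodd P
  have hev : ∀ (Q : MvPolynomial (Option (Fin 2)) ℂ) (x f u : ℂ),
      MvPolynomial.eval (fun o : Option (Fin 2) => o.elim x ![f, u]) (ph Q) =
        MvPolynomial.eval (fun o : Option (Fin 2) => o.elim x ![f ^ 2, u]) Q := by
    intro Q x f u
    have h1 : (MvPolynomial.eval (fun o : Option (Fin 2) => o.elim x ![f, u])).comp ph.toRingHom =
        MvPolynomial.eval (fun o : Option (Fin 2) => o.elim x ![f ^ 2, u]) := by
      refine MvPolynomial.ringHom_ext (fun c => ?_) fun o => ?_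
      · rw [RingHom.comp_apply]
        show MvPolynomial.eval _ (ph (MvPolynomial.C c)) = _
        unfold ph
        rw [MvPolynomial.aeval_C, MvPolynomial.algebraMap_eq, MvPolynomial.eval_C, MvPolynomial.eval_C]
      · rw [RingHom.comp_apply]
        show MvPolynomial.eval _ (ph (MvPolynomial.X o)) = _
        unfold ph
        rw [MvPolynomial.aeval_X, MvPolynomial.eval_X]
        rcases o with _ | j
        · simp
        · fin_cases j <;> simp
    exact congrFun (congrArg DFunLike.coe h1) Q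
  -- the polynomial in the squares
  have hS : A ^ 2 - MvPolynomial.X (some 0) * B ^ 2 = 0 := by
    set S := A ^ 2 - MvPolynomial.X (some 0) * B ^ 2 with hSdef
    set tr : MvPolynomial (Option (Fin 2)) ℂ →ₐ[ℂ] MvPolynomial (Option (Fin 3)) ℂ :=
      MvPolynomial.aeval fun o => o.elim (MvPolynomial.X none)
        ![MvPolynomial.C (1 / tpi) * MvPolynomial.X (some 0), MvPolynomial.X (some 1)] with htr
    have htpi : tpi ≠ 0 := by
      unfold tpi
      exact Complex.two_pi_I_ne_zero
    have hetr : ∀ (Q : MvPolynomial (Option (Fin 2)) ℂ) (x : ℂ) (v : Fin 3 → ℂ),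
        MvPolynomial.eval (fun o : Option (Fin 3) => o.elim x v) (tr Q) =
          MvPolynomial.eval (fun o : Option (Fin 2) => o.elim x ![1 / tpi * v 0, v 1]) Q := by
      intro Q x v
      have h1 : (MvPolynomial.eval (fun o : Option (Fin 3) => o.elim x v)).comp tr.toRingHom =
          MvPolynomial.eval (fun o : Option (Fin 2) => o.elim x ![1 / tpi * v 0, v 1]) := by
        refine MvPolynomial.ringHom_ext (fun c => ?_) fun o => ?_
        · rw [RingHom.comp_apply]
          show MvPolynomial.eval _ (tr (MvPolynomial.C c)) = _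
          rw [htr, MvPolynomial.aeval_C, MvPolynomial.algebraMap_eq, MvPolynomial.eval_C, MvPolynomial.eval_C]
        · rw [RingHom.comp_apply]
          show MvPolynomial.eval _ (tr (MvPolynomial.X o)) = _
          rw [htr, MvPolynomial.aeval_X, MvPolynomial.eval_X]
          rcases o with _ | j
          · simp
          · fin_cases j <;> simp
      exact congrFun (congrArg DFunLike.coe h1) Q
    have h1 : tr S = 0 := by
      refine all_DN true (max (1 / ε) (1 / r)) (tr S) fun t ht => ?_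
      have hεt : 1 / ε < t := (le_max_left _ _).trans_lt ht
      have h2 : 0 < t := lt_trans (by positivity) hεt
      rw [hetr]
      have hf : ((ev t FF : ℝ) : ℂ) ≠ 0 := by
        rw [← VL_real]
        refine hne _ ?_
        rw [norm_div, norm_one, Complex.norm_real, Real.norm_of_nonneg h2.le, div_lt_comm₀ h2 hε]
        exact hεt
      have h4 : 1 / tpi * pS true t 0 = VL FF (1 / (t : ℂ)) ^ 2 := by
        rw [VL_real]
        unfold pS
        have h5 : (MvPolynomial.aeval (p1 (hS true) t)) (qS true 0) = tpi * (((ev t FF : ℝ) : ℂ) * ((ev t FF : ℝ) : ℂ)) := by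
          simp [qS, qJ, p1, hS, hJ]
        rw [h5]
        field_simp
      rw [h4]
      set u := pS true t 1 with hu
      have h5 := hP (1 / (t : ℂ), ![VL FF (1 / (t : ℂ)), u]) (by
        refine ⟨1 / (t : ℂ), (VL GG (1 / (t : ℂ)) - u) / VL FF (1 / (t : ℂ)), ?_, ?_⟩
        · have h6 : 1 / r < t := (le_max_right _ _).trans_lt ht
          rw [norm_div, norm_one, Complex.norm_real, Real.norm_of_nonneg h2.le]
          rw [div_lt_comm₀ h2 hr]
          exact h6
        · rw [VL_real FF t, div_mul_cancel₀ _ hf]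
          ring_nf)
      simp only at h5
      rw [hAB, map_add, map_mul, hev, hev, MvPolynomial.eval_X] at h5
      rw [hSdef, map_sub, map_mul, map_pow, map_pow, MvPolynomial.eval_X]
      simp only [Option.elim_some, Matrix.cons_val_zero] at h5 ⊢
      linear_combination (MvPolynomial.eval (fun o : Option (Fin 2) => o.elim (1 / (t : ℂ)) ![VL FF (1 / (t : ℂ)) ^ 2, u]) A
        - VL FF (1 / (t : ℂ)) * MvPolynomial.eval (fun o : Option (Fin 2) => o.elim (1 / (t : ℂ)) ![VL FF (1 / (t : ℂ)) ^ 2, u]) B) * h5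
    refine MvPolynomial.funext fun x => ?_
    have h2 := hetr S (x none) ![tpi * x (some 0), x (some 1), 0]
    rw [h1, map_zero] at h2
    rw [map_zero, h2]
    congr 1
    congr 1
    funext o
    rcases o with _ | j
    · rfl
    · fin_cases j
      · simp [htpi]
      · simp
  rw [hAB]
  exact sq_zero (sub_eq_zero.1 hS)

end Pool.Agent.NH25.JM
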