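import Pool.Agent.NH25.JM.Ind
import Pool.Agent.NH25.FR.Free

/-!
# Isogeny classes of points with algebraic modular invariants
-/

set_option autoImplicit false

open PowerSeries Module

namespace Pool.Agent.NH25.JM

open Pool.Agent.Y113 Pool.Agent.Y921.DB Pool.Agent.Y120.J Pool.Agent.NH25.DL Pool.Agent.NH25.FR Pool.Agent.NH25.UF
open Pool.Agent.TH21.MS (g0 g1 g2 jj)

variable {k : ℕ} {κ₁ : Type}

/-- the functions -/
noncomputable def fJ (z t : Fin k → ℂ) (v : Fin k × Fin 2) : ℂ :=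
  (![VL FF (z v.1), VL GG (z v.1) - t v.1 * VL FF (z v.1)] : Fin 2 → ℂ) v.2

theorem fJ_ind {r : ℝ} (hr : 0 < r) : Ind (k := k) fJ r := by
  refine ind_of (g := fun _ z t => ![VL FF z, VL GG z - t * VL FF z]) (fun l P hP => SJ_dense hr P ?_)
  rintro _ ⟨z, t, hz, rfl⟩
  exact hP z t hz

/-- the coefficient matrices -/
noncomputable def cJ (i : Fin 2) (j : Fin (1 + 1)) : Matrix (Fin 2) (Fin 2) ℂ :=
  if i = 0 then (if j = 0 then Matrix.single 0 0 1 else 0)
  else (if j = 0 then Matrix.single 1 0 1 else Matrix.single 0 0 (-1))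

lemma cJ_eq (i : Fin 2) (z t : ℂ) : ∑ j, ((0 : ℂ) + ∑ a, ∑ a', cJ i j a a' * VL (HJ a a') z) * t ^ (j : ℕ) =
    (![VL FF z, VL GG z - t * VL FF z] : Fin 2 → ℂ) i := by
  fin_cases i
  · simp [cJ, Fin.sum_univ_two, HJ, Matrix.single]
  · simp [cJ, Fin.sum_univ_two, HJ, Matrix.single]
    ring

/-- the representation -/
noncomputable def repJ (l₀ : Fin k) (cw : κ₁ → ℂ) (ρ : ℝ) : RepL (Pc cw fJ) ρ (fun _ : Fin k => HJ) where
  e := 1
  co := Sum.elim (fun _ => l₀) Prod.fst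
  c₀ := Sum.elim (fun o j => if j = 0 then cw o else 0) (fun _ _ => 0)
  c := fun i => i.elim (fun _ _ => 0) (fun v => cJ v.2)
  eq := by
    intro z hz t i
    rcases i with o | v
    · simp [Pc, Fin.sum_univ_two]
    · simp only [Pc, Sum.elim_inr]
      exact (cJ_eq v.2 (z v.1) (t v.1)).symm

/-- the points near infinity -/
theorem pointJ : ∃ r₀ : ℝ, 0 < r₀ ∧ ∀ (v : UpperHalfPlane) (s : ℂ), s ≠ 0 → ‖s‖ < r₀ → jj v = 1 / s →
    ∃ (w : UpperHalfPlane) (a b c d : ℤ) (t : ℂ), a * d - b * c = 1 ∧ (c : ℂ) * w + d ≠ 0 ∧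
      (v : ℂ) = (a * w + b) / (c * w + d) ∧
      Complex.exp t = 1 / s ∧ VL FF s ≠ 0 ∧ VL GG s - t * VL FF s = tpi * w * VL FF s := by
  obtain ⟨Y, hY1, hY⟩ := hanc
  obtain ⟨T, hT⟩ := fdc Y
  have hM : 0 < max T 1 := lt_of_lt_of_le one_pos (le_max_right _ _)
  refine ⟨1 / max T 1, by positivity, fun v s hs hsr hv => ?_⟩
  obtain ⟨γ, w, hw, hvw, hjw⟩ := hT v (by
    rw [hv, norm_div, norm_one]
    have h0 : 0 < ‖s‖ := norm_pos_iff.2 hs
    rw [lt_div_iff₀ hM] at hsr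
    rw [le_div_iff₀ h0]
    have h1 : T * ‖s‖ ≤ max T 1 * ‖s‖ := mul_le_mul_of_nonneg_right (le_max_left _ _) h0.le
    linarith)
  obtain ⟨-, -, -, hmob, hne⟩ := Pool.Agent.Y508.J.t_mob γ w
  obtain ⟨-, -, hF, -, -, hexp⟩ := hY w hw
  have hsj : 1 / jj w = s := by
    rw [hjw, hv, one_div_one_div]
  rw [hsj] at hF hexp
  have hevF : evc FF s = VL FF s := rfl
  have hevG : evc GG s = VL GG s := rfl
  rw [hevF] at hF hexp
  rw [hevG] at hexp
  have hdet : (γ 0 0) * (γ 1 1) - (γ 0 1) * (γ 1 0) = 1 := by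
    have h := γ.det_coe
    rw [Matrix.det_fin_two] at h
    exact h
  refine ⟨w, γ 0 0, γ 0 1, γ 1 0, γ 1 1, -(tpi * w - VL GG s / VL FF s), hdet, hne, ?_, ?_, hF, ?_⟩
  · rw [hvw]
    exact hmob
  · rw [Complex.exp_neg, hexp, one_div]
  · field_simp
    ring

/-- isogenous points -/
def IsoJ (x z : ℂ) : Prop := ∃ v : ℂ, 0 < v.im ∧ jj v = x ∧ ∃ a b c d : ℚ, 0 < a * d - b * c ∧
  z = ((a : ℂ) * v + b) / ((c : ℂ) * v + d)

theorem isoJ : ∃ r₀ : ℝ, 0 < r₀ ∧ ∀ (z s : ℂ), s ≠ 0 → ‖s‖ < r₀ → IsoJ (1 / s) z →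
    ∃ (w : ℂ) (a b c d : ℚ) (t : ℂ), a * d - b * c ≠ 0 ∧ (c : ℂ) * w + d ≠ 0 ∧ z = (a * w + b) / (c * w + d) ∧
      Complex.exp t = 1 / s ∧ VL FF s ≠ 0 ∧ VL GG s - t * VL FF s = tpi * w * VL FF s := by
  obtain ⟨r₀, hr₀, h⟩ := pointJ
  refine ⟨r₀, hr₀, fun z s hs hsr hz => ?_⟩
  obtain ⟨v, hv, hjv, a, b, c, d, hdet, hzv⟩ := hz
  obtain ⟨w, a', b', c', d', t, hdet', hne, hvw, ht, hF, hG⟩ := h ⟨v, hv⟩ s hs hsr hjv
  have hvw' : v = (a' * w + b') / (c' * w + d') := hvw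
  have hdetQ : ((a' : ℚ)) * d' - b' * c' = 1 := by exact_mod_cast hdet'
  refine ⟨w, a * a' + b * c', a * b' + b * d', c * a' + d * c', c * b' + d * d', t, ?_, ?_, ?_, ht, hF, hG⟩
  · have h1 : (a * a' + b * c') * (c * b' + d * d') - (a * b' + b * d') * (c * a' + d * c') =
        (a * d - b * c) * (a' * d' - b' * c') := by ring
    rw [h1, hdetQ, mul_one]
    exact hdet.ne'
  · push_cast
    have hv0 : (c : ℂ) * v + d ≠ 0 := by
      intro h0
      have h1 := congrArg Complex.im h0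
      simp only [Complex.add_im, Complex.mul_im, Complex.ratCast_re, Complex.ratCast_im, zero_mul, add_zero,
        Complex.zero_im] at h1
      have hc : (c : ℝ) = 0 := (mul_eq_zero.1 h1).resolve_right hv.ne'
      have hc' : c = 0 := by exact_mod_cast hc
      rw [hc'] at h0 hdet
      have hd : (d : ℂ) = 0 := by simpa using h0
      have hd' : d = 0 := by exact_mod_cast hd
      rw [hd'] at hdet
      simp at hdet
    have h1 : ((c : ℂ) * a' + d * c') * w + (c * b' + d * d') = (c * v + d) * (c' * w + d') := by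
      rw [hvw']
      field_simp
      ring
    rw [h1]
    exact mul_ne_zero hv0 hne
  · push_cast
    have h1 : ((c : ℂ) * a' + d * c') * w + (c * b' + d * d') = (c * v + d) * (c' * w + d') := by
      rw [hvw']
      field_simp
      ring
    have h2 : ((a : ℂ) * a' + b * c') * w + (a * b' + b * d') = (a * v + b) * (c' * w + d') := by
      rw [hvw']
      field_simp
      ring
    rw [h1, h2, mul_div_mul_right _ _ hne, hzv]

section hom

variable [Fintype κ₁]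

/-- the substitution of fractions -/
noncomputable def hom (δ : ℕ) (n m : Fin k → MvPolynomial (κ₁ ⊕ (Fin k × Fin 2)) ℂ) (P : MvPolynomial (κ₁ ⊕ Fin k) ℂ) :
    MvPolynomial (κ₁ ⊕ (Fin k × Fin 2)) ℂ :=
  ∑ e ∈ P.support, MvPolynomial.C (P.coeff e) * ((∏ o, MvPolynomial.X (Sum.inl o) ^ e (Sum.inl o)) *
    ∏ l, (n l ^ e (Sum.inr l) * m l ^ (δ - e (Sum.inr l))))

variable {δ : ℕ} {n m : Fin k → MvPolynomial (κ₁ ⊕ (Fin k × Fin 2)) ℂ} {P : MvPolynomial (κ₁ ⊕ Fin k) ℂ}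

lemma le_supp (hP : P.totalDegree ≤ δ) {e : κ₁ ⊕ Fin k →₀ ℕ} (he : e ∈ P.support) (v : κ₁ ⊕ Fin k) : e v ≤ δ := by
  classical
  have h1 : (e.sum fun _ a => a) ≤ δ := (MvPolynomial.le_totalDegree he).trans hP
  refine le_trans ?_ h1
  rw [Finsupp.sum_fintype _ _ fun _ => rfl]
  exact Finset.single_le_sum (f := fun v => e v) (fun _ _ => Nat.zero_le _) (Finset.mem_univ v)

lemma hom_deg (hn : ∀ l, (n l).totalDegree ≤ 2) (hm : ∀ l, (m l).totalDegree ≤ 2) (hP : P.totalDegree ≤ δ) :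
    (hom δ n m P).totalDegree ≤ δ + k * (2 * δ) := by
  classical
  refine (MvPolynomial.totalDegree_finsetSum_le fun e he => ?_)
  refine (MvPolynomial.totalDegree_mul _ _).trans ?_
  rw [MvPolynomial.totalDegree_C, zero_add]
  refine (MvPolynomial.totalDegree_mul _ _).trans ?_
  refine add_le_add ?_ ?_
  · refine (MvPolynomial.totalDegree_finsetProd _ _).trans ?_
    have h1 : (e.sum fun _ a => a) ≤ δ := (MvPolynomial.le_totalDegree he).trans hP
    refine le_trans ?_ h1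
    rw [Finsupp.sum_fintype _ _ fun _ => rfl, Fintype.sum_sum_type]
    refine le_trans (Finset.sum_le_sum fun o _ => ?_) (Nat.le_add_right _ _)
    exact (MvPolynomial.totalDegree_pow _ _).trans (by rw [MvPolynomial.totalDegree_X, mul_one])
  · refine (MvPolynomial.totalDegree_finsetProd _ _).trans ?_
    refine (Finset.sum_le_card_nsmul _ _ (2 * δ) fun l _ => ?_).trans (by
      rw [Finset.card_univ, Fintype.card_fin, smul_eq_mul])
    refine (MvPolynomial.totalDegree_mul _ _).trans ?_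
    have h1 := (MvPolynomial.totalDegree_pow (n l) (e (Sum.inr l)))
    have h2 := (MvPolynomial.totalDegree_pow (m l) (δ - e (Sum.inr l)))
    have h3 := le_supp hP he (Sum.inr l)
    calc _ ≤ e (Sum.inr l) * 2 + (δ - e (Sum.inr l)) * 2 :=
          add_le_add (h1.trans (Nat.mul_le_mul_left _ (hn l))) (h2.trans (Nat.mul_le_mul_left _ (hm l)))
      _ = 2 * δ := by omega

lemma hom_mem {K : IntermediateField ℚ ℂ} {𝒮 : Subring (MvPolynomial (κ₁ ⊕ (Fin k × Fin 2)) ℂ)}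
    (hC : ∀ c ∈ K, MvPolynomial.C c ∈ 𝒮) (hX : ∀ o, MvPolynomial.X (Sum.inl o) ∈ 𝒮) (hn : ∀ l, n l ∈ 𝒮)
    (hm : ∀ l, m l ∈ 𝒮) (hP : ∀ e, P.coeff e ∈ K) : hom δ n m P ∈ 𝒮 := by
  refine sum_mem fun e _ => mul_mem (hC _ (hP e)) (mul_mem ?_ ?_)
  · exact prod_mem fun o _ => pow_mem (hX o) _
  · exact prod_mem fun l _ => mul_mem (pow_mem (hn l) _) (pow_mem (hm l) _)

lemma hom_eval (hP : P.totalDegree ≤ δ) (y : κ₁ ⊕ (Fin k × Fin 2) → ℂ) (hm : ∀ l, MvPolynomial.eval y (m l) ≠ 0) :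
    MvPolynomial.eval y (hom δ n m P) = (∏ l, MvPolynomial.eval y (m l) ^ δ) *
      MvPolynomial.eval (Sum.elim (fun o => y (Sum.inl o)) fun l => MvPolynomial.eval y (n l) / MvPolynomial.eval y (m l)) P := by
  rw [MvPolynomial.eval_eq' _ P, Finset.mul_sum]
  unfold hom
  rw [map_sum]
  refine Finset.sum_congr rfl fun e he => ?_
  rw [map_mul, map_mul, map_prod, map_prod, MvPolynomial.eval_C, Fintype.prod_sum_type]
  simp only [map_pow, map_mul, MvPolynomial.eval_X, Sum.elim_inl, Sum.elim_inr]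
  have h1 : ∏ l, (MvPolynomial.eval y (n l) ^ e (Sum.inr l) * MvPolynomial.eval y (m l) ^ (δ - e (Sum.inr l))) =
      (∏ l, MvPolynomial.eval y (m l) ^ δ) *
        ∏ l, (MvPolynomial.eval y (n l) / MvPolynomial.eval y (m l)) ^ e (Sum.inr l) := by
    rw [← Finset.prod_mul_distrib]
    refine Finset.prod_congr rfl fun l _ => ?_
    have h2 : MvPolynomial.eval y (m l) ^ δ = MvPolynomial.eval y (m l) ^ e (Sum.inr l) *
        MvPolynomial.eval y (m l) ^ (δ - e (Sum.inr l)) := by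
      rw [← pow_add, Nat.add_sub_cancel' (le_supp hP he _)]
    rw [h2, div_pow]
    have h3 := pow_ne_zero (e (Sum.inr l)) (hm l)
    field_simp
  rw [h1]
  ring

end hom

section main

variable [Fintype κ₁]

/-- **The relations between isogenous points.** -/
theorem relJ {cw : κ₁ → ℂ} {o₀ : κ₁} (ho₀ : cw o₀ = tpi) : ∃ r₀ : ℝ, 0 < r₀ ∧ ∀ r : ℝ, 0 < r → r ≤ r₀ → ∀ (D δ : ℕ) (s : Fin k → ℂ),
    (∀ l, s l ≠ 0) → Pnt D (Pc cw fJ) r (δ + k * (2 * δ)) s → ∀ z : Fin k → ℂ, (∀ l, IsoJ (1 / s l) (z l)) →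
    ∀ K : IntermediateField ℚ ℂ, FiniteDimensional ℚ K → finrank ℚ K ≤ D → ∀ P : MvPolynomial (κ₁ ⊕ Fin k) ℂ,
    P.totalDegree ≤ δ → (∀ e, P.coeff e ∈ K) → MvPolynomial.eval (Sum.elim cw z) P = 0 → sp cw P = 0 := by
  classical
  obtain ⟨r₀, hr₀, hiso⟩ := isoJ
  refine ⟨r₀, hr₀, fun r hr hrr D δ s hs hPnt z hz K hK hKD P hPd hPc h0 => ?_⟩
  choose w a b c d t hdet hne hzw ht hF hG using fun l => hiso (z l) (s l) (hs l) ((hPnt.1 l).trans_le hrr) (hz l)
  have htpi : tpi ≠ 0 := by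
    unfold tpi
    exact Complex.two_pi_I_ne_zero
  set n : Fin k → MvPolynomial (κ₁ ⊕ (Fin k × Fin 2)) ℂ := fun l => MvPolynomial.C ((a l : ℚ) : ℂ) *
    MvPolynomial.X (Sum.inr (l, 1)) + MvPolynomial.C ((b l : ℚ) : ℂ) *
      (MvPolynomial.X (Sum.inl o₀) * MvPolynomial.X (Sum.inr (l, 0))) with hn
  set m : Fin k → MvPolynomial (κ₁ ⊕ (Fin k × Fin 2)) ℂ := fun l => MvPolynomial.C ((c l : ℚ) : ℂ) *
    MvPolynomial.X (Sum.inr (l, 1)) + MvPolynomial.C ((d l : ℚ) : ℂ) *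
      (MvPolynomial.X (Sum.inl o₀) * MvPolynomial.X (Sum.inr (l, 0))) with hm
  have hdeg : ∀ (x y : ℂ) (l : Fin k), (MvPolynomial.C x * MvPolynomial.X (Sum.inr (l, 1)) + MvPolynomial.C y *
      (MvPolynomial.X (Sum.inl o₀) * MvPolynomial.X (Sum.inr (l, 0))) :
        MvPolynomial (κ₁ ⊕ (Fin k × Fin 2)) ℂ).totalDegree ≤ 2 := by
    intro x y l
    refine (MvPolynomial.totalDegree_add _ _).trans (max_le ?_ ?_)
    · refine (MvPolynomial.totalDegree_mul _ _).trans ?_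
      rw [MvPolynomial.totalDegree_C, MvPolynomial.totalDegree_X]
      omega
    · refine (MvPolynomial.totalDegree_mul _ _).trans ?_
      rw [MvPolynomial.totalDegree_C]
      refine (add_le_add le_rfl (MvPolynomial.totalDegree_mul _ _)).trans ?_
      rw [MvPolynomial.totalDegree_X, MvPolynomial.totalDegree_X]
  have hevl : ∀ (x y : ℂ) (l : Fin k) (Y : κ₁ ⊕ (Fin k × Fin 2) → ℂ), MvPolynomial.eval Y (MvPolynomial.C x *
      MvPolynomial.X (Sum.inr (l, 1)) + MvPolynomial.C y *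
      (MvPolynomial.X (Sum.inl o₀) * MvPolynomial.X (Sum.inr (l, 0)))) =
        x * Y (Sum.inr (l, 1)) + y * (Y (Sum.inl o₀) * Y (Sum.inr (l, 0))) := by
    intro x y l Y
    simp
  -- the value of the homogenised polynomial
  have h1 : MvPolynomial.aeval (Pc cw fJ s t) (hom δ n m P) = 0 := by
    have e1 : ∀ l, MvPolynomial.eval (Pc cw fJ s t) (n l) = (a l * w l + b l) * (tpi * VL FF (s l)) := by
      intro l
      rw [hn]
      simp only
      rw [hevl]
      simp only [Pc, Sum.elim_inr, Sum.elim_inl, fJ, Matrix.cons_val_one, Matrix.cons_val_zero, Fin.isValue,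
        Matrix.cons_val_fin_one]
      rw [hG l, ho₀]
      ring
    have e2 : ∀ l, MvPolynomial.eval (Pc cw fJ s t) (m l) = (c l * w l + d l) * (tpi * VL FF (s l)) := by
      intro l
      rw [hm]
      simp only
      rw [hevl]
      simp only [Pc, Sum.elim_inr, Sum.elim_inl, fJ, Matrix.cons_val_one, Matrix.cons_val_zero, Fin.isValue,
        Matrix.cons_val_fin_one]
      rw [hG l, ho₀]
      ring
    rw [MvPolynomial.aeval_eq_eval, hom_eval hPd _ fun l => by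
      rw [e2]
      exact mul_ne_zero (hne l) (mul_ne_zero htpi (hF l))]
    have e3 : (Sum.elim (fun o => Pc cw fJ s t (Sum.inl o)) fun l => MvPolynomial.eval (Pc cw fJ s t) (n l) /
        MvPolynomial.eval (Pc cw fJ s t) (m l)) = Sum.elim cw z := by
      funext o
      rcases o with o | l
      · rfl
      · simp only [Sum.elim_inr]
        rw [e1, e2, mul_div_mul_right _ _ (mul_ne_zero htpi (hF l)), hzw l]
    rw [e3, h0, mul_zero]
  have h2 : sp cw (hom δ n m P) = 0 := by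
    refine free_of (fJ_ind hr) hPnt hK hKD ht (hom_deg (fun l => hdeg _ _ l) (fun l => hdeg _ _ l) hPd) (fun e => ?_) h1
    have h3 : hom δ n m P ∈ (MvPolynomial.map (algebraMap K ℂ) : MvPolynomial (κ₁ ⊕ (Fin k × Fin 2)) K →+* _).range := by
      have hC : ∀ x ∈ K, (MvPolynomial.C x : MvPolynomial (κ₁ ⊕ (Fin k × Fin 2)) ℂ) ∈
          (MvPolynomial.map (algebraMap K ℂ) : MvPolynomial (κ₁ ⊕ (Fin k × Fin 2)) K →+* _).range :=
        fun x hx => ⟨MvPolynomial.C ⟨x, hx⟩, by rw [MvPolynomial.map_C]; rfl⟩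
      have hX : ∀ o, (MvPolynomial.X o : MvPolynomial (κ₁ ⊕ (Fin k × Fin 2)) ℂ) ∈
          (MvPolynomial.map (algebraMap K ℂ) : MvPolynomial (κ₁ ⊕ (Fin k × Fin 2)) K →+* _).range :=
        fun o => ⟨MvPolynomial.X o, by rw [MvPolynomial.map_X]⟩
      have hq : ∀ x : ℚ, (x : ℂ) ∈ K := fun x => by
        have := K.algebraMap_mem x
        rwa [eq_ratCast] at this
      refine hom_mem hC (fun o => hX _) (fun l => ?_) (fun l => ?_) hPc
      · exact add_mem (mul_mem (hC _ (hq _)) (hX _)) (mul_mem (hC _ (hq _)) (mul_mem (hX _) (hX _)))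
      · exact add_mem (mul_mem (hC _ (hq _)) (hX _)) (mul_mem (hC _ (hq _)) (mul_mem (hX _) (hX _)))
    obtain ⟨Q, hQ⟩ := h3
    rw [← hQ, MvPolynomial.coeff_map]
    exact (le_sup_left : K ≤ K ⊔ IntermediateField.adjoin ℚ (Set.range s)) (Q.coeff e).2
  refine MvPolynomial.funext fun x => ?_
  rw [map_zero, sp_eval]
  -- the inverse substitution
  set Y : (Fin k × Fin 2) → ℂ := fun v => if v.2 = 0 then (a v.1 - c v.1 * x v.1) / (((a v.1 * d v.1 - b v.1 * c v.1 : ℚ) : ℂ) * tpi)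
    else (d v.1 * x v.1 - b v.1) / ((a v.1 * d v.1 - b v.1 * c v.1 : ℚ) : ℂ) with hY
  have hdetC : ∀ l, ((a l * d l - b l * c l : ℚ) : ℂ) ≠ 0 := fun l => by
    exact_mod_cast hdet l
  have e1 : ∀ l, MvPolynomial.eval (Sum.elim cw Y) (n l) = x l := by
    intro l
    rw [hn]
    simp only
    rw [hevl]
    have h3 := hdetC l
    simp only [Sum.elim_inr, Sum.elim_inl, hY, ho₀]
    rw [if_neg (by decide), if_pos trivial]
    push_cast at h3 ⊢
    field_simp
    ring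
  have e2 : ∀ l, MvPolynomial.eval (Sum.elim cw Y) (m l) = 1 := by
    intro l
    rw [hm]
    simp only
    rw [hevl]
    have h3 := hdetC l
    simp only [Sum.elim_inr, Sum.elim_inl, hY, ho₀]
    rw [if_neg (by decide), if_pos trivial]
    have h4 : ((a l * d l - b l * c l : ℚ) : ℂ) = a l * d l - b l * c l := by push_cast; ring
    rw [h4] at h3 ⊢
    have h5 : ∀ D : ℂ, D ≠ 0 → (c l : ℂ) * ((d l * x l - b l) / D) + d l * (tpi * ((a l - c l * x l) / (D * tpi))) =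
        (a l * d l - b l * c l) / D := by
      intro D hD
      field_simp
      ring
    rw [h5 _ h3, div_self h3]
  have h3 := congrArg (MvPolynomial.eval Y) h2
  rw [sp_eval, map_zero, hom_eval hPd _ fun l => by rw [e2]; exact one_ne_zero] at h3
  simp only [e1, e2, one_pow, Finset.prod_const_one, one_mul, div_one, Sum.elim_inl] at h3
  exact h3

end main

end Pool.Agent.NH25.JM
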